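import Pool.Agent.H59.PC.Cla

/-! If `K` is `p`-central of height `k` then so is `K` modulo the elements of order `p`. -/

set_option autoImplicit false

open scoped commutatorElement

namespace Pool.Agent.H59.PC

variable {K : Type*} [Group K]

/-- Proof, by induction on `m`. `m = 0`: `(g y g⁻¹) ^ p = g y ^ p g⁻¹ ∈ Z k ≤ Z j`. Step: `s ∈ S m`, `m + 1 ≤ j`, `g`. Apply
`hpZ` with `Z = Z (j - m - 1)`, `L r = N (m + 2 + r)`, `a = ⁅g, s⁆`, `b = s`. `htop`: `N (m + 2 + k) ≤ Z (j - m - 1)` since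
`N (j + 1 + k) = ⊥`. `hcomm`: `N (2m + 5) ≤ N (m + 3 + 2 + m)`, `2m + 5 + (j - m - 1) = j + m + 4 ≥ j + 1 + k`. `hexp`:
`claim` with `t = m + 2 ≤ j + 1`: `x ^ p ∈ Z (j + 1 - (m + 2))`. So `⁅g, s⁆ ^ p = ⁅g, s ^ p⁆` modulo `Z (j - m - 1)`, and
`s ^ p ∈ Z (j - m)`. -/
theorem chain {p k : ℕ} (hp : p.Prime) (hk : k ≤ 3) (hkp : k + 2 ≤ p) (y : K) (j : ℕ) (hkj : k ≤ j)
    (hE : ∀ x ∈ N y (j + 1), x ^ p = 1) (hN : N y (j + 1 + k) = ⊥)
    (hy : y ^ p ∈ Subgroup.upperCentralSeries K k) :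
    ∀ m ≤ j, ∀ s ∈ S y m, s ^ p ∈ Subgroup.upperCentralSeries K (j - m) := by
  intro m
  induction m with
  | zero =>
    rintro - s ⟨g, rfl⟩
    rw [conj_pow, Nat.sub_zero]
    have h1 : y ^ p ∈ Subgroup.upperCentralSeries K j := Subgroup.upperCentralSeries_mono K hkj hy
    exact Subgroup.Normal.conj_mem inferInstance _ h1 g
  | succ m ih =>
    rintro hm s' ⟨s, hs, g, rfl⟩
    have h1 := ih (by omega) s hs
    have hsN : s ∈ N y m := S_sub y hs
    have haN : ⁅g, s⁆ ∈ N y (m + 1) := N_comm y hsN g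
    have hab : ⁅⁅g, s⁆, s⁆ ∈ N y (m + 2 + 0) := by
      rw [← commutatorElement_inv]
      exact Subgroup.inv_mem _ (N_comm y haN s)
    have h2 := hpZ hp hk hkp (Subgroup.upperCentralSeries K (j - (m + 1))) (fun r => N y (m + 2 + r))
      (N_normal y _) (fun a b h => N_anti y (by omega)) (fun r x hx g => N_comm y hx g)
      (N_ucs y (by
        show N y (m + 2 + k + (j - (m + 1))) = ⊥
        rw [show m + 2 + k + (j - (m + 1)) = j + 1 + k by omega]
        exact hN))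
      (fun x hx z hz => by
        have h3 : ⁅x, z⁆ ∈ N y (m + 2 + 0 + (m + 2 + 0) + 1) := N_comm2 y hx hz
        have h4 : N y (m + 2 + 0 + (m + 2 + 0) + 1 + (j - (m + 1))) = ⊥ := by
          rw [eq_bot_iff, ← hN]
          exact N_anti y (by omega)
        exact N_ucs y h4 h3)
      (fun x hx => by
        have h3 := claim hp hk hkp y j hE hN (m + 2 + 0) (by omega) x hx
        rw [show j + 1 - (m + 2 + 0) = j - (m + 1) by omega] at h3
        exact h3)
      ⁅g, s⁆ s hab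
    have h5 : ⁅g, s⁆ * s = g * s * g⁻¹ := by
      rw [commutatorElement_def]
      group
    rw [h5, conj_pow] at h2
    have h6 : g * s ^ p * g⁻¹ * (⁅g, s⁆ ^ p * s ^ p)⁻¹ = ⁅g, s ^ p⁆ * (⁅g, s⁆ ^ p)⁻¹ := by
      rw [commutatorElement_def g (s ^ p), mul_inv_rev]
      group
    rw [h6] at h2
    have h7 : ⁅g, s ^ p⁆ ∈ Subgroup.upperCentralSeries K (j - (m + 1)) := by
      rw [show j - m = (j - (m + 1)) + 1 by omega] at h1
      have h8 := (Subgroup.mem_upperCentralSeries_succ_iff).1 h1 g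
      rw [← commutatorElement_inv]
      exact Subgroup.inv_mem _ h8
    have h10 := Subgroup.mul_mem _ (Subgroup.inv_mem _ h7) h2
    rw [inv_mul_cancel_left] at h10
    exact (Subgroup.inv_mem_iff _).1 h10

end Pool.Agent.H59.PC
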