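import Pool.Agent.H59.PC.Defs

/-! The series `N y j`. -/

set_option autoImplicit false

open scoped commutatorElement

namespace Pool.Agent.H59.PC

variable {K : Type*} [Group K] (y : K)

instance N_normal (j : ℕ) : (N y j).Normal := by
  induction j with
  | zero => exact Subgroup.normalClosure_normal
  | succ j ih =>
    have := ih
    exact Subgroup.commutator_normal (N y j) ⊤

theorem N_anti : Antitone (N y) :=
  antitone_nat_of_succ_le fun j => Subgroup.commutator_le_left (N y j) ⊤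

theorem N_comm {j : ℕ} {x : K} (hx : x ∈ N y j) (g : K) : ⁅g, x⁆ ∈ N y (j + 1) := by
  have h := Subgroup.commutator_mem_commutator (Subgroup.mem_top g) hx
  rw [Subgroup.commutator_comm] at h
  exact h

private theorem N_comm' {j : ℕ} {x : K} (hx : x ∈ N y j) (g : K) : ⁅x, g⁆ ∈ N y (j + 1) :=
  Subgroup.commutator_mem_commutator hx (Subgroup.mem_top g)

private theorem three {A B C L : Subgroup K} [hL : L.Normal] (h1 : ⁅⁅B, C⁆, A⁆ ≤ L)
    (h2 : ⁅⁅C, A⁆, B⁆ ≤ L) : ⁅⁅A, B⁆, C⁆ ≤ L := by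
  have key : ∀ H : Subgroup K, H ≤ L ↔ H.map (QuotientGroup.mk' L) = ⊥ := by
    intro H
    rw [Subgroup.map_eq_bot_iff, QuotientGroup.ker_mk']
  rw [key, Subgroup.map_commutator, Subgroup.map_commutator] at h1 h2 ⊢
  exact Subgroup.commutator_commutator_eq_bot_of_rotate h1 h2

private theorem N_comm3 (b : ℕ) : ∀ a : ℕ, ⁅N y a, N y b⁆ ≤ N y (a + b + 1) := by
  induction b with
  | zero =>
    intro a
    exact Subgroup.commutator_mono le_rfl le_top
  | succ b ih =>
    intro a
    have h1 : ⁅⁅(⊤ : Subgroup K), N y a⁆, N y b⁆ ≤ N y (a + (b + 1) + 1) := by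
      rw [Subgroup.commutator_comm ⊤ (N y a)]
      have h := ih (a + 1)
      rw [show a + 1 + b + 1 = a + (b + 1) + 1 by omega] at h
      exact h
    have h2 : ⁅⁅N y a, N y b⁆, (⊤ : Subgroup K)⁆ ≤ N y (a + (b + 1) + 1) :=
      Subgroup.commutator_mono (ih a) le_rfl
    have h3 : ⁅⁅N y b, (⊤ : Subgroup K)⁆, N y a⁆ ≤ N y (a + (b + 1) + 1) := three h1 h2
    rw [Subgroup.commutator_comm]
    exact h3

/-- Proof: induction on `b` (three subgroups lemma:
`[N a, [N b, K]] ≤ [[N a, N b], K] [[N a, K], N b]`, e.g. from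
`Subgroup.commutator_commutator_eq_bot_of_rotate` in the quotient by `N (a + b + 2)`). -/
theorem N_comm2 {a b : ℕ} {x z : K} (hx : x ∈ N y a) (hz : z ∈ N y b) :
    ⁅x, z⁆ ∈ N y (a + b + 1) :=
  N_comm3 y b a (Subgroup.commutator_mem_commutator hx hz)

private theorem N_ucs' (i : ℕ) : ∀ j : ℕ, N y (j + i) = ⊥ → N y j ≤ Subgroup.upperCentralSeries K i := by
  induction i with
  | zero =>
    intro j h
    rw [add_zero] at h
    rw [h]
    exact bot_le
  | succ i ih =>
    intro j h x hx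
    rw [Subgroup.mem_upperCentralSeries_succ_iff]
    intro g
    have h1 := ih (j + 1) (by rw [show j + 1 + i = j + (i + 1) by omega]; exact h)
    exact h1 (N_comm' y hx g)

/-- Proof: induction on `i`. -/
theorem N_ucs {j i : ℕ} (h : N y (j + i) = ⊥) : N y j ≤ Subgroup.upperCentralSeries K i :=
  N_ucs' y i j h

/-- Proof: `N y j ≤ lowerCentralSeries K j`. -/
theorem N_bot [Group.IsNilpotent K] : ∃ c : ℕ, N y c = ⊥ := by
  obtain ⟨c, hc⟩ := Subgroup.nilpotent_iff_lowerCentralSeries.1 (inferInstance : Group.IsNilpotent K)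
  refine ⟨c, ?_⟩
  rw [eq_bot_iff, ← hc]
  have h : ∀ j : ℕ, N y j ≤ (⊤ : Subgroup K).lowerCentralSeries j := by
    intro j
    induction j with
    | zero => exact le_top
    | succ j ih =>
      rw [Subgroup.lowerCentralSeries_succ]
      exact Subgroup.commutator_mono ih le_rfl
  exact h c

private theorem S_conj (j : ℕ) : ∀ s ∈ S y j, ∀ h : K, h * s * h⁻¹ ∈ S y j := by
  induction j with
  | zero =>
    rintro _ ⟨g, rfl⟩ h
    exact ⟨h * g, by group⟩
  | succ j ih =>
    rintro _ ⟨s, hs, g, rfl⟩ h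
    refine ⟨h * s * h⁻¹, ih s hs h, h * g * h⁻¹, ?_⟩
    rw [commutatorElement_def, commutatorElement_def]
    group

private theorem T_conj {A : Set K} (hA : ∀ s ∈ A, ∀ h : K, h * s * h⁻¹ ∈ A) {x : K}
    (hx : x ∈ Subgroup.closure A) (h : K) : h * x * h⁻¹ ∈ Subgroup.closure A := by
  induction hx using Subgroup.closure_induction with
  | mem x hx => exact Subgroup.subset_closure (hA x hx h)
  | one => simp [(Subgroup.closure A).one_mem]
  | mul x x' _ _ h1 h2 =>
    rw [show h * (x * x') * h⁻¹ = (h * x * h⁻¹) * (h * x' * h⁻¹) by group]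
    exact (Subgroup.closure A).mul_mem h1 h2
  | inv x _ h1 =>
    rw [show h * x⁻¹ * h⁻¹ = (h * x * h⁻¹)⁻¹ by group]
    exact (Subgroup.closure A).inv_mem h1

/-- Proof: `S y j` is closed under conjugation; `⁅g, st⁆ = ⁅g, s⁆ (s ⁅g, t⁆ s⁻¹)`,
`⁅g, s⁻¹⁆ = s⁻¹ ⁅g, s⁆⁻¹ s`; `Subgroup.normalClosure` is the closure of the conjugates. -/
theorem N_eq_closure (j : ℕ) : N y j = Subgroup.closure (S y j) := by
  induction j with
  | zero =>
    show Subgroup.closure (Group.conjugatesOfSet {y}) = _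
    congr 1
    ext x
    rw [Group.mem_conjugatesOfSet_iff]
    constructor
    · rintro ⟨a, rfl, h⟩
      obtain ⟨c, hc⟩ := isConj_iff.1 h
      exact ⟨c, hc.symm⟩
    · rintro ⟨g, rfl⟩
      exact ⟨y, rfl, isConj_iff.2 ⟨g, rfl⟩⟩
  | succ j ih =>
    apply le_antisymm
    · show ⁅N y j, (⊤ : Subgroup K)⁆ ≤ _
      rw [Subgroup.commutator_comm, Subgroup.commutator_le]
      rintro g - x hx
      rw [ih] at hx
      have hT := fun (z : K) (hz : z ∈ Subgroup.closure (S y (j + 1))) (h : K) =>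
        T_conj (S_conj y (j + 1)) hz h
      induction hx using Subgroup.closure_induction with
      | mem x hx => exact Subgroup.subset_closure ⟨x, hx, g, rfl⟩
      | one =>
        rw [commutatorElement_one_right]
        exact one_mem _
      | mul x x' _ _ h1 h2 =>
        rw [show ⁅g, x * x'⁆ = ⁅g, x⁆ * (x * ⁅g, x'⁆ * x⁻¹) by
          rw [commutatorElement_def, commutatorElement_def, commutatorElement_def]; group]
        exact mul_mem h1 (hT _ h2 x)
      | inv x _ h1 =>
        rw [show ⁅g, x⁻¹⁆ = x⁻¹ * ⁅g, x⁆⁻¹ * x⁻¹⁻¹ by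
          rw [commutatorElement_def, commutatorElement_def]; group]
        exact hT _ (inv_mem h1) x⁻¹
    · rw [Subgroup.closure_le]
      rintro _ ⟨s, hs, g, rfl⟩
      refine N_comm y ?_ g
      rw [ih]
      exact Subgroup.subset_closure hs

theorem S_sub {j : ℕ} {s : K} (hs : s ∈ S y j) : s ∈ N y j := by
  rw [N_eq_closure]
  exact Subgroup.subset_closure hs

end Pool.Agent.H59.PC
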