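import Pool.Agent.H59.PC.HP
import Pool.Agent.H59.PC.Ser

/-! If `K` is `p`-central of height `k` then so is `K` modulo the elements of order `p`. -/

set_option autoImplicit false

open scoped commutatorElement

namespace Pool.Agent.H59.PC

variable {K : Type*} [Group K]

private theorem claim_aux {p k : ℕ} (hp : p.Prime) (hk : k ≤ 3) (hkp : k + 2 ≤ p) (y : K) (j : ℕ)
    (hE : ∀ x ∈ N y (j + 1), x ^ p = 1) (hN : N y (j + 1 + k) = ⊥) :
    ∀ d ≤ j + 1, ∀ x ∈ N y (j + 1 - d), x ^ p ∈ Subgroup.upperCentralSeries K d := by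
  intro d
  induction d with
  | zero =>
    intro _ x hx
    rw [hE x hx]
    exact Subgroup.one_mem _
  | succ d ih =>
    intro hd x hx
    obtain ⟨t, rfl⟩ : ∃ t, j = t + d := ⟨j - d, by omega⟩
    have e1 : t + d + 1 - (d + 1) = t := by omega
    have e2 : t + d + 1 - d = t + 1 := by omega
    rw [e1] at hx
    have ih' : ∀ x ∈ N y (t + 1), x ^ p ∈ Subgroup.upperCentralSeries K d := by
      have h := ih (by omega)
      rw [e2] at h
      exact h
    have hbot : ∀ i, t + d + 1 + k ≤ i → N y i = ⊥ := by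
      intro i hi
      have h := N_anti y hi
      rw [hN] at h
      exact le_bot_iff.1 h
    rw [Subgroup.mem_upperCentralSeries_succ_iff]
    intro g
    have ha : ⁅g, x⁆ ∈ N y (t + 1) := N_comm y hx g
    have hap := ih' _ ha
    have key := hpZ hp hk hkp (Subgroup.upperCentralSeries K d) (fun r => N y (t + 2 + r))
      (N_normal y (t + 2)) (fun r s hrs => N_anti y (by omega))
      (fun r z hz g' => N_comm y hz g')
      (N_ucs y (hbot _ (by omega)))
      (fun u hu v hv => N_ucs y (j := t + 2 + (t + 2) + 1) (hbot _ (by omega)) (N_comm2 y hu hv))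
      (fun z hz => ih' z (N_anti y (by omega : t + 1 ≤ t + 2 + 0) hz))
      ⁅g, x⁆ x (by
        have h := Subgroup.inv_mem _ (N_comm y ha x)
        rw [commutatorElement_inv] at h
        exact h)
    have e3 : ⁅g, x⁆ * x = g * x * g⁻¹ := by
      rw [commutatorElement_def]
      group
    rw [e3, conj_pow] at key
    have key2 := Subgroup.mul_mem _ key hap
    have e4 : g * x ^ p * g⁻¹ * (⁅g, x⁆ ^ p * x ^ p)⁻¹ * ⁅g, x⁆ ^ p = ⁅g, x ^ p⁆ := by
      rw [commutatorElement_def g (x ^ p)]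
      generalize ⁅g, x⁆ ^ p = u
      generalize x ^ p = v
      group
    rw [e4] at key2
    have key3 := Subgroup.inv_mem _ key2
    rw [commutatorElement_inv] at key3
    exact key3

/-- `Z i` = `upperCentralSeries K i`. Proof, by induction on `j + 1 - t` (for all `t ≤ j + 1`, also for larger `t`, where
`x ^ p = 1` by `hE`): let `t ≤ j`, `x ∈ N t`, `g`. Apply `hpZ` with `Z = Z (j - t)`, `L r = N (t + 2 + r)`, `a = ⁅g, x⁆`,
`b = x` (`⁅a, b⁆ ∈ N (t + 2)`): `htop`: `N (t + 2 + k) ≤ Z (j - t)` since `N (j + 2 + k) = ⊥` (`N_ucs`); `hcomm`: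
`⁅N (t+2), N (t+2)⁆ ≤ N (2t + 5) ≤ N (t + 5) ≤ Z (j - t)` as `t + 5 + j - t ≥ j + 1 + k`; `hexp`: induction. As
`a * b = g x g⁻¹`, `(g x g⁻¹) ^ p = ⁅g, x ^ p⁆ x ^ p`, so `⁅g, x ^ p⁆ (⁅g, x⁆ ^ p)⁻¹ ∈ Z (j - t)` up to conjugation, and
`⁅g, x⁆ ^ p ∈ Z (j - t)` by induction (`⁅g, x⁆ ∈ N (t + 1)`). So `x ^ p ∈ Z (j - t + 1)`. -/
theorem claim {p k : ℕ} (hp : p.Prime) (hk : k ≤ 3) (hkp : k + 2 ≤ p) (y : K) (j : ℕ)
    (hE : ∀ x ∈ N y (j + 1), x ^ p = 1) (hN : N y (j + 1 + k) = ⊥) :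
    ∀ t ≤ j + 1, ∀ x ∈ N y t, x ^ p ∈ Subgroup.upperCentralSeries K (j + 1 - t) := by
  intro t ht x hx
  refine claim_aux hp hk hkp y j hE hN (j + 1 - t) (by omega) x ?_
  have e : j + 1 - (j + 1 - t) = t := by omega
  rw [e]
  exact hx

end Pool.Agent.H59.PC
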