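import Mathlib

/-!
Groups whose two-generator subgroups are finite `p`-central groups of height `k`: definitions.
-/

set_option autoImplicit false

open scoped commutatorElement

namespace Pool.Agent.H59.PC

/-- the series `N 0 = ⟨⟨y⟩⟩`, `N (j + 1) = [N j, K]` -/
def N {K : Type*} [Group K] (y : K) : ℕ → Subgroup K
  | 0 => Subgroup.normalClosure {y}
  | j + 1 => ⁅N y j, (⊤ : Subgroup K)⁆

/-- the conjugates of `y`, and `S (j + 1)` = commutators of elements of `S j` with elements -/
def S {K : Type*} [Group K] (y : K) : ℕ → Set K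
  | 0 => {x | ∃ g : K, x = g * y * g⁻¹}
  | j + 1 => {x | ∃ s ∈ S y j, ∃ g : K, x = ⁅g, s⁆}

/-- the elements of order dividing `p` lie in the `k`-th centre -/
def Central (p k : ℕ) (K : Type*) [Group K] : Prop :=
  ∀ z : K, z ^ p = 1 → z ∈ Subgroup.upperCentralSeries K k

/-- any two elements generate a finite `p`-group whose elements of order `p` lie in its `k`-th
centre -/
def Pairs (p k : ℕ) (G : Type*) [Group G] : Prop :=
  ∀ x y : G, Finite (Subgroup.closure {x, y}) ∧ IsPGroup p (Subgroup.closure {x, y}) ∧
    Central p k (Subgroup.closure {x, y})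

end Pool.Agent.H59.PC
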