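import Pool.Agent.H59.PC.HP

/-! A group of small class generated by elements of order `p` has exponent `p`. -/

set_option autoImplicit false

open scoped commutatorElement

namespace Pool.Agent.H59.PC

private theorem ab1 {K : Type*} [Group K]
    (h3 : Subgroup.lowerCentralSeries (⊤ : Subgroup K) 3 = ⊥) :
    ∀ x ∈ Subgroup.lowerCentralSeries (⊤ : Subgroup K) 1,
      ∀ y ∈ Subgroup.lowerCentralSeries (⊤ : Subgroup K) 1, x * y = y * x := by
  have e1 : Subgroup.lowerCentralSeries (⊤ : Subgroup K) 1 =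
      ⁅(⊤ : Subgroup K), (⊤ : Subgroup K)⁆ := rfl
  have h : ⁅⁅(⊤ : Subgroup K), (⊤ : Subgroup K)⁆,
      Subgroup.lowerCentralSeries (⊤ : Subgroup K) 1⁆ = ⊥ := by
    apply Subgroup.commutator_commutator_eq_bot_of_rotate
    · rw [Subgroup.commutator_comm (⊤ : Subgroup K) (Subgroup.lowerCentralSeries ⊤ 1)]
      exact h3
    · exact h3
  intro x hx y hy
  have h1 : ⁅x, y⁆ ∈ (⊥ : Subgroup K) := by
    rw [← h]
    exact Subgroup.commutator_mem_commutator (e1 ▸ hx) hy
  rw [Subgroup.mem_bot, commutatorElement_eq_one_iff_mul_comm] at h1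
  exact h1

private theorem mem_succ {K : Type*} [Group K] (j : ℕ) (x : K)
    (hx : x ∈ Subgroup.lowerCentralSeries (⊤ : Subgroup K) j) (g : K) :
    ⁅g, x⁆ ∈ Subgroup.lowerCentralSeries (⊤ : Subgroup K) (j + 1) := by
  rw [← commutatorElement_inv]
  exact inv_mem (Subgroup.commutator_mem_commutator hx (Subgroup.mem_top g))

private theorem conj_pow_one {K : Type*} [Group K] {p : ℕ} {x : K} (hx : x ^ p = 1) (g : K) :
    (g * x * g⁻¹) ^ p = 1 := by
  rw [conj_pow, hx]; group

private theorem step {p k : ℕ} (hp : p.Prime) (hk : k ≤ 3) (hkp : k + 2 ≤ p) {K : Type*} [Group K]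
    (hc : Subgroup.lowerCentralSeries (⊤ : Subgroup K) k = ⊥) (T : Set K)
    (hT : Subgroup.closure T = ⊤) (h : ∀ t ∈ T, t ^ p = 1) (j : ℕ)
    (hj : ∀ x ∈ Subgroup.lowerCentralSeries (⊤ : Subgroup K) (j + 1), x ^ p = 1) :
    ∀ x ∈ Subgroup.lowerCentralSeries (⊤ : Subgroup K) j, x ^ p = 1 := by
  have h3 : Subgroup.lowerCentralSeries (⊤ : Subgroup K) 3 = ⊥ :=
    le_bot_iff.1 (hc ▸ (⊤ : Subgroup K).lowerCentralSeries_antitone hk)
  have hH : ∀ a b : K, ⁅a, b⁆ ∈ Subgroup.lowerCentralSeries (⊤ : Subgroup K) (j + 1) →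
      (a * b) ^ p = a ^ p * b ^ p := by
    intro a b hab
    refine hpL hp hk hkp (fun r => Subgroup.lowerCentralSeries (⊤ : Subgroup K) (j + 1 + r))
      inferInstance ?_ ?_ ?_ ?_ ?_ a b hab
    · intro r s hrs
      exact (⊤ : Subgroup K).lowerCentralSeries_antitone (by omega)
    · intro r x hx g
      exact mem_succ _ x hx g
    · exact le_bot_iff.1 (hc ▸ (⊤ : Subgroup K).lowerCentralSeries_antitone (by omega))
    · intro x hx y hy
      exact ab1 h3 x ((⊤ : Subgroup K).lowerCentralSeries_antitone (by omega) hx) y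
        ((⊤ : Subgroup K).lowerCentralSeries_antitone (by omega) hy)
    · exact hj
  -- products
  have hmul : ∀ x ∈ Subgroup.lowerCentralSeries (⊤ : Subgroup K) j, ∀ y : K, x ^ p = 1 →
      y ^ p = 1 → (x * y) ^ p = 1 := by
    intro x hx y h1 h2
    rw [hH x y, h1, h2, one_mul]
    rw [← commutatorElement_inv]
    exact inv_mem (mem_succ j x hx y)
  rcases j with _ | i
  · intro x hx0
    have hx : x ∈ Subgroup.closure T := hT ▸ Subgroup.mem_top x
    clear hx0
    induction hx using Subgroup.closure_induction with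
    | mem t ht => exact h t ht
    | one => exact one_pow p
    | mul a b _ _ ha hb => exact hmul a (Subgroup.mem_top a) b ha hb
    | inv a _ ha => rw [inv_pow, ha, inv_one]
  · have hcom : ∀ g : K, ∀ z ∈ Subgroup.lowerCentralSeries (⊤ : Subgroup K) i, ⁅z, g⁆ ^ p = 1 := by
      intro g
      have hg : g ∈ Subgroup.closure T := hT ▸ Subgroup.mem_top g
      induction hg using Subgroup.closure_induction with
      | mem t ht =>
        intro z hz
        have hm : ⁅z, t⁆ ∈ Subgroup.lowerCentralSeries (⊤ : Subgroup K) (i + 1) :=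
          Subgroup.commutator_mem_commutator hz (Subgroup.mem_top t)
        have h1 : (⁅z, t⁆ * t) ^ p = ⁅z, t⁆ ^ p * t ^ p := by
          apply hH
          rw [← commutatorElement_inv]
          exact inv_mem (mem_succ (i + 1) _ hm t)
        have h2 : ⁅z, t⁆ * t = z * t * z⁻¹ := by
          rw [commutatorElement_def]; group
        rw [h2, conj_pow_one (h t ht), h t ht, mul_one] at h1
        exact h1.symm
      | one => intro z _; rw [commutatorElement_one_right, one_pow]
      | mul a b _ _ ha hb =>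
        intro z hz
        have e : ⁅z, a * b⁆ = ⁅z, a⁆ * (a * ⁅z, b⁆ * a⁻¹) := by
          simp only [commutatorElement_def]; group
        rw [e]
        exact hmul _ (Subgroup.commutator_mem_commutator hz (Subgroup.mem_top a)) _ (ha z hz)
          (conj_pow_one (hb z hz) a)
      | inv a _ ha =>
        intro z hz
        have e : ⁅z, a⁻¹⁆ = a⁻¹ * ⁅z, a⁆⁻¹ * a⁻¹⁻¹ := by
          simp only [commutatorElement_def]; group
        rw [e]
        apply conj_pow_one
        rw [inv_pow, ha z hz, inv_one]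
    intro x hx
    have hx2 : x ∈ ⁅Subgroup.lowerCentralSeries (⊤ : Subgroup K) i, (⊤ : Subgroup K)⁆ ∧
        x ^ p = 1 := by
      have hx' : x ∈ Subgroup.closure {g | ∃ g₁ ∈ Subgroup.lowerCentralSeries (⊤ : Subgroup K) i,
          ∃ g₂ ∈ (⊤ : Subgroup K), ⁅g₁, g₂⁆ = g} := hx
      clear hx
      induction hx' using Subgroup.closure_induction with
      | mem t ht =>
        obtain ⟨z, hz, g, _, rfl⟩ := ht
        exact ⟨Subgroup.commutator_mem_commutator hz (Subgroup.mem_top g), hcom g z hz⟩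
      | one => exact ⟨one_mem _, one_pow p⟩
      | mul a b _ _ ha hb => exact ⟨mul_mem (ha.1) (hb.1), hmul a ha.1 b ha.2 hb.2⟩
      | inv a _ ha => exact ⟨inv_mem ha.1, by rw [inv_pow, ha.2, inv_one]⟩
    exact hx2.2

/-- Write `γ j = lowerCentralSeries K j` (`γ 0 = K`, `γ k = 1`, so `γ 3 = 1`); `⁅γ i, γ j⁆ ≤ γ (i + j + 1)`
(needed: `⁅γ 1, γ 1⁆ ≤ γ 3`). Proof: downward induction on `j ≥ 1` for `∀ x ∈ γ j, x ^ p = 1` (true for `j = k`). Suppose it holds
for `j + 1`, `j ≥ 1`. Let `U = {g | g ^ p = 1}`, closed under conjugation, generating `K`. `γ j` is the closure of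
`{⁅z, g⁆ | z ∈ γ (j - 1), g ∈ U}` (closed under conjugation; `⁅z, g h⁆ = ⁅z, g⁆ (g ⁅z, h⁆ g⁻¹)`). For such `z, g`: `hpL` with
`a = ⁅z, g⁆`, `b = g`, `L r = γ (j + 1 + r)` (abelian of exponent `p`): `1 = (z g z⁻¹) ^ p = (a b) ^ p = a ^ p b ^ p = a ^ p`.
Products of elements of `γ j` of order `p` have order `p`, again by `hpL` with the same `L`. Finally `j = 0`: the same with
`L r = γ (1 + r)`. -/
theorem exp_of_gen {p k : ℕ} (hp : p.Prime) (hk : k ≤ 3) (hkp : k + 2 ≤ p) {K : Type*} [Group K]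
    (hc : Subgroup.lowerCentralSeries (⊤ : Subgroup K) k = ⊥) (T : Set K) (hT : Subgroup.closure T = ⊤)
    (h : ∀ t ∈ T, t ^ p = 1) : ∀ x : K, x ^ p = 1 := by
  have key : ∀ i : ℕ, ∀ x ∈ Subgroup.lowerCentralSeries (⊤ : Subgroup K) (k - i), x ^ p = 1 := by
    intro i
    induction i with
    | zero =>
      intro x hx
      rw [Nat.sub_zero, hc, Subgroup.mem_bot] at hx
      rw [hx, one_pow]
    | succ i ih =>
      by_cases hi : k - i = 0
      · have e : k - (i + 1) = k - i := by omega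
        rw [e]; exact ih
      · have e : k - i = k - (i + 1) + 1 := by omega
        rw [e] at ih
        exact step hp hk hkp hc T hT h _ ih
  intro x
  have e := key k x
  rw [Nat.sub_self] at e
  exact e (Subgroup.mem_top x)

end Pool.Agent.H59.PC
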