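import Pool.Agent.H59.PC.Cha

/-! If `K` is `p`-central of height `k` then so is `K` modulo the elements of order `p`. -/

set_option autoImplicit false

open scoped commutatorElement

namespace Pool.Agent.H59.PC

variable {K : Type*} [Group K]

private theorem fin_low {k : ℕ} (y : K) (j : ℕ)
    (h : N y j ≤ Subgroup.upperCentralSeries K k) :
    ∀ i ≤ k, N y (j + i) ≤ Subgroup.upperCentralSeries K (k - i) := by
  intro i
  induction i with
  | zero => intro _; exact h
  | succ i ih =>
    intro hi
    have h1 := ih (by omega)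
    have e : k - i = (k - (i + 1)) + 1 := by omega
    rw [e] at h1
    show ⁅N y (j + i), (⊤ : Subgroup K)⁆ ≤ _
    rw [Subgroup.commutator_le]
    intro x hx g _
    have h2 := (Subgroup.mem_upperCentralSeries_succ_iff.1 (h1 hx)) g
    rw [commutatorElement_def]
    exact h2

/-- Proof: downward induction on `j ≥ k` for the statement `∀ x ∈ N j, x ^ p = 1` (true for large `j`, `N_bot`). If it holds for
`j + 1` then `N (j + 1) ≤ Z k` (`hK`), so `N (j + 1 + k) = ⊥` (`⁅Z (i+1), K⁆ ≤ Z i`); by `chain` with `m = j` every `s ∈ S j` has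
`s ^ p = 1`; the elements of `N j` with `x ^ p = 1` form a subgroup (`hpZ` with `Z = ⊥`, or `hpL`, `L r = N (j + 1 + r)`,
`⁅a, b⁆ ∈ N (2j + 1) ≤ N (j + 1)`, `hcomm`: `N (2j + 3) ≤ N (j + 1 + k) = ⊥`), which contains `S j`, so it is `N j`
(`N_eq_closure`). -/
theorem fin {p k : ℕ} (hp : p.Prime) (hk : k ≤ 3) (hkp : k + 2 ≤ p) [Group.IsNilpotent K]
    (hK : Central p k K) (y : K) (hy : (y ^ p) ^ p = 1) : ∀ x ∈ N y k, x ^ p = 1 := by
  have step : ∀ j, k ≤ j → (∀ x ∈ N y (j + 1), x ^ p = 1) → ∀ x ∈ N y j, x ^ p = 1 := by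
    intro j hkj hE
    have h1 : N y (j + 1) ≤ Subgroup.upperCentralSeries K k := fun x hx => hK x (hE x hx)
    have hN : N y (j + 1 + k) = ⊥ := by
      have h2 := fin_low y (j + 1) h1 k le_rfl
      rw [Nat.sub_self, Subgroup.upperCentralSeries_zero] at h2
      exact le_bot_iff.1 h2
    have hch := chain hp hk hkp y j hkj hE hN (hK _ hy) j le_rfl
    rw [Nat.sub_self, Subgroup.upperCentralSeries_zero] at hch
    have hmul : ∀ a ∈ N y j, ∀ b ∈ N y j, (a * b) ^ p = a ^ p * b ^ p := by
      intro a ha b hb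
      refine hpL hp hk hkp (fun r => N y (j + 1 + r)) (N_normal y _)
        (fun r s hrs => N_anti y (by omega)) (fun r x hx g => N_comm y hx g) hN ?_
        (fun x hx => hE x hx) a b (N_comm y hb a)
      intro x hx z hz
      have h3 : ⁅x, z⁆ ∈ N y (j + 1 + (j + 1) + 1) := N_comm2 y hx hz
      have h4 : N y (j + 1 + (j + 1) + 1) ≤ N y (j + 1 + k) := N_anti y (by omega)
      have h5 := h4 h3
      rw [hN, Subgroup.mem_bot] at h5
      exact commutatorElement_eq_one_iff_mul_comm.1 h5
    intro x hx
    have key : ∀ x ∈ Subgroup.closure (S y j), x ∈ N y j ∧ x ^ p = 1 := by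
      intro x hx
      induction hx using Subgroup.closure_induction with
      | mem s hs => exact ⟨S_sub y hs, Subgroup.mem_bot.1 (hch s hs)⟩
      | one => exact ⟨one_mem _, one_pow p⟩
      | mul a b _ _ ha hb =>
        refine ⟨mul_mem ha.1 hb.1, ?_⟩
        rw [hmul a ha.1 b hb.1, ha.2, hb.2, mul_one]
      | inv a _ ha =>
        refine ⟨inv_mem ha.1, ?_⟩
        rw [inv_pow, ha.2, inv_one]
    rw [N_eq_closure] at hx
    exact (key x hx).2
  obtain ⟨c, hc⟩ := N_bot y
  have hall : ∀ i, ∀ x ∈ N y (k + (c - i)), x ^ p = 1 := by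
    intro i
    induction i with
    | zero =>
      intro x hx
      have h1 : N y (k + c) ≤ N y c := N_anti y (by omega)
      have h2 := h1 hx
      rw [hc, Subgroup.mem_bot] at h2
      rw [h2, one_pow]
    | succ i ih =>
      by_cases hi : i < c
      · have e : k + (c - i) = (k + (c - (i + 1))) + 1 := by omega
        rw [e] at ih
        exact step _ (by omega) ih
      · have e : c - (i + 1) = c - i := by omega
        rw [e]
        exact ih
  have := hall c
  rwa [Nat.sub_self, add_zero] at this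

end Pool.Agent.H59.PC
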