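import Pool.Agent.H59.PC.Fin
import Pool.Agent.H59.PC.Exp

/-! The elements of order `p` of a group with the condition on pairs, and the quotient. -/

set_option autoImplicit false

open scoped commutatorElement

namespace Pool.Agent.H59.PC

variable {G : Type*} [Group G]

private theorem gen_pow {p : ℕ} {x y : G} (hx : x ^ p = 1) (hy : y ^ p = 1)
    {z : Subgroup.closure {x, y}}
    (hz : z ∈ (Subtype.val ⁻¹' {x, y} : Set (Subgroup.closure {x, y}))) : z ^ p = 1 := by
  apply Subtype.ext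
  have hz' : (z : G) = x ∨ (z : G) = y := hz
  rw [Subgroup.coe_pow, Subgroup.coe_one]
  rcases hz' with h | h
  · rw [h]
    exact hx
  · rw [h]
    exact hy

/-- Proof: `K = ⟨x, y⟩` is generated by elements of `Z_k(K)`, so `Z_k(K) = K` and the class is at most `k`. -/
theorem pair_class {p k : ℕ} (hG : Pairs p k G) {x y : G} (hx : x ^ p = 1) (hy : y ^ p = 1) :
    Subgroup.lowerCentralSeries (⊤ : Subgroup (Subgroup.closure {x, y})) k = ⊥ := by
  rw [Subgroup.lowerCentralSeries_eq_bot_iff_upperCentralSeries_eq_top, eq_top_iff,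
    ← Subgroup.closure_closure_coe_preimage, Subgroup.closure_le]
  intro z hz
  exact (hG x y).2.2 z (gen_pow hx hy hz)

/-- Proof: `exp_of_gen` in `K = ⟨x, y⟩` with `pair_class`. -/
theorem mul_one {p k : ℕ} (hp : p.Prime) (hk : k ≤ 3) (hkp : k + 2 ≤ p) (hG : Pairs p k G)
    {x y : G} (hx : x ^ p = 1) (hy : y ^ p = 1) : (x * y) ^ p = 1 := by
  have h1 := exp_of_gen hp hk hkp (pair_class hG hx hy) _
    (Subgroup.closure_closure_coe_preimage (k := ({x, y} : Set G)))
    (fun t ht => gen_pow hx hy ht)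
  have hxK : x ∈ Subgroup.closure ({x, y} : Set G) := Subgroup.subset_closure (Or.inl rfl)
  have hyK : y ∈ Subgroup.closure ({x, y} : Set G) := Subgroup.subset_closure (Or.inr rfl)
  have h2 := congrArg Subtype.val (h1 (⟨x, hxK⟩ * ⟨y, hyK⟩))
  exact h2

/-- the subgroup of the elements with `x ^ p = 1` -/
def Om {p k : ℕ} (hp : p.Prime) (hk : k ≤ 3) (hkp : k + 2 ≤ p) (hG : Pairs p k G) :
    Subgroup G where
  carrier := {x | x ^ p = 1}
  mul_mem' := fun hx hy => mul_one hp hk hkp hG hx hy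
  one_mem' := one_pow p
  inv_mem' := fun {x} hx => by
    show x⁻¹ ^ p = 1
    rw [inv_pow, show x ^ p = 1 from hx, inv_one]

instance Om_normal {p k : ℕ} (hp : p.Prime) (hk : k ≤ 3) (hkp : k + 2 ≤ p) (hG : Pairs p k G) :
    (Om hp hk hkp hG).Normal where
  conj_mem := fun x hx g => by
    show (g * x * g⁻¹) ^ p = 1
    rw [conj_pow, show x ^ p = 1 from hx, _root_.mul_one, mul_inv_cancel]

private theorem N_map {H H' : Type*} [Group H] [Group H'] (φ : H →* H')
    (hφ : Function.Surjective φ) (z : H) (j : ℕ) : N (φ z) j = (N z j).map φ := by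
  induction j with
  | zero =>
    show Subgroup.normalClosure {φ z} = (Subgroup.normalClosure {z}).map φ
    rw [Subgroup.map_normalClosure _ φ hφ, Set.image_singleton]
  | succ j ih =>
    show ⁅N (φ z) j, (⊤ : Subgroup H')⁆ = (⁅N z j, (⊤ : Subgroup H)⁆).map φ
    rw [Subgroup.map_commutator, Subgroup.map_top_of_surjective φ hφ, ih]

private theorem quot_aux {p k : ℕ} (hp : p.Prime) (hk : k ≤ 3) (hkp : k + 2 ≤ p)
    {H H' : Type*} [Group H] [Group H'] (φ : H →* H') (hφ : Function.Surjective φ)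
    (hker : ∀ w : H, φ w = 1 ↔ w ^ p = 1) (hF : Finite H) (hP : IsPGroup p H)
    (hC : Central p k H) : Finite H' ∧ IsPGroup p H' ∧ Central p k H' := by
  refine ⟨Finite.of_surjective φ hφ, hP.of_surjective φ hφ, ?_⟩
  intro z' hz'
  obtain ⟨z, rfl⟩ := hφ z'
  have : Fact p.Prime := ⟨hp⟩
  have : Group.IsNilpotent H := hP.isNilpotent
  have h1 : (z ^ p) ^ p = 1 := by
    rw [← hker, map_pow]
    exact hz'
  have h2 := fin hp hk hkp hC z h1
  have h3 : N (φ z) (0 + k) = ⊥ := by
    rw [Nat.zero_add, N_map φ hφ, eq_bot_iff]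
    rintro _ ⟨x, hx, rfl⟩
    exact (hker x).2 (h2 x hx)
  exact N_ucs (φ z) h3 (Subgroup.subset_normalClosure rfl)

/-- Proof. `K = ⟨x, y⟩` is finite, the subgroup generated by the images is the image `K'` of `K`, finite and a `p`-group. Let
`z' ∈ K'`, `z' ^ p = 1`, lift it to `z ∈ K`; `z ^ p ∈ Om`, so `(z ^ p) ^ p = 1`. `fin` in the group `K` (a finite `p`-group is
nilpotent: `IsPGroup.isNilpotent`): the elements of `N z k` have order dividing `p`, so they are trivial in `K'`; so
`N z' k = ⊥` in `K'` and `z' ∈ Z_k(K')` (`N_ucs`). -/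
theorem pairs_quot {p k : ℕ} (hp : p.Prime) (hk : k ≤ 3) (hkp : k + 2 ≤ p) (hG : Pairs p k G) :
    Pairs p k (G ⧸ Om hp hk hkp hG) := by
  intro x' y'
  obtain ⟨x, rfl⟩ := QuotientGroup.mk'_surjective (Om hp hk hkp hG) x'
  obtain ⟨y, rfl⟩ := QuotientGroup.mk'_surjective (Om hp hk hkp hG) y'
  have hK : Subgroup.closure {QuotientGroup.mk' (Om hp hk hkp hG) x,
      QuotientGroup.mk' (Om hp hk hkp hG) y} =
      (Subgroup.closure {x, y}).map (QuotientGroup.mk' (Om hp hk hkp hG)) := by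
    rw [MonoidHom.map_closure, Set.image_pair]
  rw [hK]
  refine quot_aux hp hk hkp ((QuotientGroup.mk' (Om hp hk hkp hG)).subgroupMap _)
    (MonoidHom.subgroupMap_surjective _ _) ?_ (hG x y).1 (hG x y).2.1 (hG x y).2.2
  intro w
  rw [Subtype.ext_iff, Subtype.ext_iff]
  show QuotientGroup.mk' (Om hp hk hkp hG) (w : G) = 1 ↔ (w : G) ^ p = 1
  rw [QuotientGroup.mk'_apply, QuotientGroup.eq_one_iff]
  rfl

end Pool.Agent.H59.PC
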