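import Pool.Agent.H59.PC.HPL

/-! Hall's formula `(ab)^p = a^p b^p` in small class. -/

set_option autoImplicit false

open scoped commutatorElement

namespace Pool.Agent.H59.PC

/-- the same modulo a normal subgroup `Z`. Proof: `hpL` in `K ⧸ Z` for the images of the `L r`. -/
theorem hpZ {p k : ℕ} (hp : p.Prime) (hk : k ≤ 3) (hkp : k + 2 ≤ p) {K : Type*} [Group K]
    (Z : Subgroup K) [Z.Normal] (L : ℕ → Subgroup K) (hn : (L 0).Normal) (hanti : Antitone L)
    (hL : ∀ r, ∀ x ∈ L r, ∀ g : K, ⁅g, x⁆ ∈ L (r + 1)) (htop : L k ≤ Z)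
    (hcomm : ∀ x ∈ L 0, ∀ y ∈ L 0, ⁅x, y⁆ ∈ Z) (hexp : ∀ x ∈ L 0, x ^ p ∈ Z)
    (a b : K) (hab : ⁅a, b⁆ ∈ L 0) : (a * b) ^ p * (a ^ p * b ^ p)⁻¹ ∈ Z := by
  set q : K →* K ⧸ Z := QuotientGroup.mk' Z with hq
  have hqs : Function.Surjective q := QuotientGroup.mk'_surjective Z
  have hq1 : ∀ x : K, q x = 1 ↔ x ∈ Z := fun x => QuotientGroup.eq_one_iff x
  have key := hpL hp hk hkp (H := K ⧸ Z) (fun r => (L r).map q) (hn.map q hqs)
    (fun r s hrs => Subgroup.map_mono (hanti hrs))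
    (fun r x hx g => by
      obtain ⟨x', hx', rfl⟩ := Subgroup.mem_map.1 hx
      obtain ⟨g', rfl⟩ := hqs g
      rw [← map_commutatorElement]
      exact Subgroup.mem_map_of_mem q (hL r x' hx' g'))
    (by
      rw [eq_bot_iff]
      rintro x hx
      obtain ⟨x', hx', rfl⟩ := Subgroup.mem_map.1 hx
      rw [Subgroup.mem_bot, hq1]
      exact htop hx')
    (fun x hx y hy => by
      obtain ⟨x', hx', rfl⟩ := Subgroup.mem_map.1 hx
      obtain ⟨y', hy', rfl⟩ := Subgroup.mem_map.1 hy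
      rw [← commutatorElement_eq_one_iff_mul_comm, ← map_commutatorElement, hq1]
      exact hcomm x' hx' y' hy')
    (fun x hx => by
      obtain ⟨x', hx', rfl⟩ := Subgroup.mem_map.1 hx
      rw [← map_pow, hq1]
      exact hexp x' hx')
    (q a) (q b) (by
      rw [← map_commutatorElement]
      exact Subgroup.mem_map_of_mem q hab)
  rw [← hq1, map_mul, map_pow, map_mul, key, map_inv, map_mul, map_pow, map_pow, mul_inv_cancel]

end Pool.Agent.H59.PC
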