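import Pool.Agent.H59.PC.Grp
import Pool.Agent.H76.MB.Fin

/-! The theorem. -/

set_option autoImplicit false

open scoped commutatorElement

namespace Pool.Agent.H59.PC

variable {G : Type*} [Group G]

private theorem metab {K : Type*} [Group K] (h3 : Subgroup.lowerCentralSeries (⊤ : Subgroup K) 3 = ⊥) (a b : K) :
    (a⁻¹ * b⁻¹ * a * b) * (a⁻¹ * (a⁻¹ * b⁻¹ * a * b) * a) =
      (a⁻¹ * (a⁻¹ * b⁻¹ * a * b) * a) * (a⁻¹ * b⁻¹ * a * b) := by
  have h3' : ⁅⁅⁅(⊤ : Subgroup K), (⊤ : Subgroup K)⁆, (⊤ : Subgroup K)⁆, (⊤ : Subgroup K)⁆ = ⊥ := h3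
  have h4 : ⁅⁅(⊤ : Subgroup K), (⊤ : Subgroup K)⁆, ⁅(⊤ : Subgroup K), (⊤ : Subgroup K)⁆⁆ = ⊥ := by
    refine Subgroup.commutator_commutator_eq_bot_of_rotate ?_ h3'
    rw [Subgroup.commutator_comm (⊤ : Subgroup K) ⁅(⊤ : Subgroup K), (⊤ : Subgroup K)⁆]
    exact h3'
  have hu : a⁻¹ * b⁻¹ * a * b ∈ ⁅(⊤ : Subgroup K), (⊤ : Subgroup K)⁆ := by
    have h5 := Subgroup.commutator_mem_commutator (Subgroup.mem_top a⁻¹) (Subgroup.mem_top b⁻¹)
    rw [commutatorElement_def, inv_inv, inv_inv] at h5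
    exact h5
  have hv : a⁻¹ * (a⁻¹ * b⁻¹ * a * b) * a ∈ ⁅(⊤ : Subgroup K), (⊤ : Subgroup K)⁆ := by
    have hn : (⁅(⊤ : Subgroup K), (⊤ : Subgroup K)⁆).Normal := inferInstance
    have h5 := hn.conj_mem _ hu a⁻¹
    rw [inv_inv] at h5
    exact h5
  have h6 := Subgroup.commutator_mem_commutator hu hv
  rw [h4, Subgroup.mem_bot, commutatorElement_eq_one_iff_mul_comm] at h6
  exact h6

/-- Proof. `Om` is a group of exponent `p`; for `x, g ∈ Om` both lie in `Z_k(K)`, `K = ⟨x, g⟩`, so `K` has class at most `3` and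
`⁅γ_2, γ_2⁆ ≤ γ_4 = 1`; so `u = x⁻¹ g⁻¹ x g` commutes with `x⁻¹ u x`: `Pool.Agent.H76.MB.main_LF` (see
`Pool/Agent/Results/MP_47409b_al/MetabelianPairs.lean`). If `k = 0`, `Om = ⊥`. `p ≠ 2` or `k = 0`. -/
theorem om_lf {p k : ℕ} (hp : p.Prime) (hk : k ≤ 3) (hkp : k + 2 ≤ p) (hG : Pairs p k G)
    (s : Finset (Om hp hk hkp hG)) : Finite (Subgroup.closure (s : Set (Om hp hk hkp hG))) := by
  classical
  rcases Nat.eq_zero_or_pos k with rfl | h0
  · have h1 : ∀ x : Om hp hk hkp hG, x = 1 := by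
      intro x
      have hx : (x : G) ^ p = 1 := x.2
      have h2 := pair_class hG hx hx
      rw [Subgroup.lowerCentralSeries_zero] at h2
      have hm : (x : G) ∈ Subgroup.closure {(x : G), (x : G)} := Subgroup.subset_closure (Set.mem_insert _ _)
      have h3 : (⟨(x : G), hm⟩ : Subgroup.closure {(x : G), (x : G)}) ∈
          (⊤ : Subgroup (Subgroup.closure {(x : G), (x : G)})) := Subgroup.mem_top _
      rw [h2, Subgroup.mem_bot] at h3
      have h4 : (x : G) = 1 := congrArg (Subtype.val : Subgroup.closure {(x : G), (x : G)} → G) h3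
      exact Subtype.ext h4
    have h2 : Subsingleton (Om hp hk hkp hG) := ⟨fun a b => by rw [h1 a, h1 b]⟩
    infer_instance
  · refine Pool.Agent.H76.MB.main_LF hp (by omega : p ≠ 2) ?_ ?_ s
    · intro x
      refine ⟨1, Subtype.ext ?_⟩
      rw [pow_one]
      exact x.2
    · intro x g
      have hx : (x : G) ^ p = 1 := x.2
      have hg : (g : G) ^ p = 1 := g.2
      have h2 := pair_class hG hx hg
      have h3 : Subgroup.lowerCentralSeries (⊤ : Subgroup (Subgroup.closure {(x : G), (g : G)})) 3 = ⊥ := by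
        refine le_bot_iff.1 ?_
        rw [← h2]
        exact Subgroup.lowerCentralSeries_antitone _ hk
      have hmx : (x : G) ∈ Subgroup.closure {(x : G), (g : G)} := Subgroup.subset_closure (Set.mem_insert _ _)
      have hmg : (g : G) ∈ Subgroup.closure {(x : G), (g : G)} :=
        Subgroup.subset_closure (Set.mem_insert_of_mem _ (Set.mem_singleton _))
      have h4 := congrArg Subtype.val (metab h3 ⟨(x : G), hmx⟩ ⟨(g : G), hmg⟩)
      exact Subtype.ext h4

end Pool.Agent.H59.PC
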