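import Pool.Agent.H59.PC.Omlf

/-! The theorem. -/

set_option autoImplicit false

open scoped commutatorElement

namespace Pool.Agent.H59.PC

universe u

variable {G : Type*} [Group G]

/-- Proof: `H = ⟨s⟩` maps onto a finite subgroup of `G ⧸ M`; `H ⊓ M` has finite index in `H`, so it is finitely generated
(`Subgroup.fg_of_index_ne_zero`) and finite. -/
theorem schmidt (M : Subgroup G) [M.Normal] (hM : ∀ s : Finset M, Finite (Subgroup.closure (s : Set M)))
    (s : Finset G) (hs : Finite (Subgroup.closure ((QuotientGroup.mk : G → G ⧸ M) '' (s : Set G)))) :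
    Finite (Subgroup.closure (s : Set G)) := by
  obtain ⟨H, hH⟩ : ∃ H, H = Subgroup.closure (s : Set G) := ⟨_, rfl⟩
  rw [← hH]
  have hfg : Group.FG H := by
    rw [Group.fg_iff_subgroup_fg]
    exact ⟨s, hH.symm⟩
  let f : H →* G ⧸ M := (QuotientGroup.mk' M).comp H.subtype
  have hrange : f.range = Subgroup.closure ((QuotientGroup.mk : G → G ⧸ M) '' (s : Set G)) := by
    show ((QuotientGroup.mk' M).comp H.subtype).range = _
    rw [MonoidHom.range_comp, Subgroup.range_subtype, hH, MonoidHom.map_closure]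
    rfl
  have hfin : Finite f.range := by
    rw [hrange]
    exact hs
  have hidx : f.ker.index ≠ 0 := by
    rw [Subgroup.index_ker]
    exact Nat.card_ne_zero.2 ⟨⟨1, f.range.one_mem⟩, hfin⟩
  have hFI : f.ker.FiniteIndex := ⟨hidx⟩
  have hkfg : Group.FG f.ker := Subgroup.fg_of_index_ne_zero f.ker
  have hmem : ∀ x : f.ker, ((x : H) : G) ∈ M := by
    intro x
    have h1 : f (x : H) = 1 := x.2
    exact (QuotientGroup.eq_one_iff _).1 h1
  let j : f.ker →* M := (H.subtype.comp f.ker.subtype).codRestrict M hmem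
  have hj : Function.Injective j := by
    intro x y hxy
    have h1 := congrArg (fun z : M => (z : G)) hxy
    exact Subtype.ext (Subtype.ext h1)
  have hjr : Group.FG j.range := Group.fg_of_surjective j.rangeRestrict_surjective
  have hjf : Finite j.range := by
    rw [Group.fg_iff_subgroup_fg] at hjr
    obtain ⟨T, hT⟩ := hjr
    rw [← hT]
    exact hM T
  have hkf : Finite f.ker := by
    refine Finite.of_injective j.rangeRestrict ?_
    intro x y hxy
    exact hj (congrArg (fun z : j.range => (z : M)) hxy)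
  have h1 := Subgroup.card_mul_index f.ker
  have h2 : Nat.card f.ker ≠ 0 := Nat.card_ne_zero.2 ⟨⟨1, f.ker.one_mem⟩, hkf⟩
  exact Nat.finite_of_card_ne_zero (by rw [← h1]; exact mul_ne_zero h2 hidx)

private theorem pow_om {p k : ℕ} (hp : p.Prime) (hk : k ≤ 3) (hkp : k + 2 ≤ p) (hG : Pairs p k G)
    {x : G} {i : ℕ} : (QuotientGroup.mk x : G ⧸ Om hp hk hkp hG) ^ p ^ i = 1 ↔
      x ^ p ^ (i + 1) = 1 := by
  rw [← QuotientGroup.mk_pow, QuotientGroup.eq_one_iff]
  show (x ^ p ^ i) ^ p = 1 ↔ _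
  rw [← _root_.pow_mul, ← pow_succ]

private theorem pow_mul_aux {p k : ℕ} (hp : p.Prime) (hk : k ≤ 3) (hkp : k + 2 ≤ p) (i : ℕ) :
    ∀ (G : Type u) [Group G], Pairs p k G → ∀ x y : G, x ^ p ^ i = 1 → y ^ p ^ i = 1 →
      (x * y) ^ p ^ i = 1 := by
  induction i with
  | zero =>
    intro G _ _ x y hx hy
    rw [pow_zero, pow_one] at hx hy ⊢
    rw [hx, hy, _root_.mul_one]
  | succ i ih =>
    intro G _ hG x y hx hy
    have h1 := ih (G ⧸ Om hp hk hkp hG) (pairs_quot hp hk hkp hG) (QuotientGroup.mk x)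
      (QuotientGroup.mk y) ((pow_om hp hk hkp hG).2 hx) ((pow_om hp hk hkp hG).2 hy)
    rw [← QuotientGroup.mk_mul] at h1
    exact (pow_om hp hk hkp hG).1 h1

/-- Proof: induction on `i` for all groups, with `pairs_quot`. -/
theorem pow_mul {p k : ℕ} (hp : p.Prime) (hk : k ≤ 3) (hkp : k + 2 ≤ p) (hG : Pairs p k G) (i : ℕ)
    {x y : G} (hx : x ^ p ^ i = 1) (hy : y ^ p ^ i = 1) : (x * y) ^ p ^ i = 1 :=
  pow_mul_aux hp hk hkp i G hG x y hx hy

private theorem main_aux {p k : ℕ} (hp : p.Prime) (hk : k ≤ 3) (hkp : k + 2 ≤ p) (e : ℕ) :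
    ∀ (G : Type u) [Group G], Pairs p k G → ∀ s : Finset G, (∀ x ∈ s, x ^ p ^ e = 1) →
      Finite (Subgroup.closure (s : Set G)) := by
  classical
  induction e with
  | zero =>
    intro G _ _ s hs
    have h1 : Subgroup.closure (s : Set G) = ⊥ := by
      rw [Subgroup.closure_eq_bot_iff]
      intro x hx
      have h2 := hs x hx
      rw [pow_zero, pow_one] at h2
      exact h2
    rw [h1]
    infer_instance
  | succ e ih =>
    intro G _ hG s hs
    refine schmidt (Om hp hk hkp hG) (om_lf hp hk hkp hG) s ?_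
    have h1 := ih (G ⧸ Om hp hk hkp hG) (pairs_quot hp hk hkp hG)
      (s.image (QuotientGroup.mk : G → G ⧸ Om hp hk hkp hG)) (by
        intro x hx
        obtain ⟨y, hy, rfl⟩ := Finset.mem_image.1 hx
        exact (pow_om hp hk hkp hG).2 (hs y hy))
    rw [Finset.coe_image] at h1
    exact h1

/-- Proof: all elements of `s` have order dividing `p ^ e` for some `e`; induction on `e` for all groups (`pairs_quot`, `om_lf`,
`schmidt`). -/
theorem main {p k : ℕ} (hp : p.Prime) (hk : k ≤ 3) (hkp : k + 2 ≤ p) (hG : Pairs p k G)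
    (s : Finset G) : Finite (Subgroup.closure (s : Set G)) := by
  have h1 : ∀ x : G, ∃ n : ℕ, x ^ p ^ n = 1 := by
    intro x
    obtain ⟨n, hn⟩ := (hG x x).2.1 ⟨x, Subgroup.subset_closure (by simp)⟩
    refine ⟨n, ?_⟩
    have h2 := congrArg (fun z : Subgroup.closure {x, x} => (z : G)) hn
    simpa using h2
  choose n hn using h1
  refine main_aux hp hk hkp (s.sup n) G hG s fun x hx => ?_
  obtain ⟨c, hc⟩ := pow_dvd_pow p (Finset.le_sup (f := n) hx)
  rw [hc, _root_.pow_mul, hn, one_pow]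

end Pool.Agent.H59.PC
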